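import Mathlib
import Pool.Agent.W282.DZ.Stm

/-! DZ-LOW: lower bound for the Hilbert function of a prime ideal. -/

set_option autoImplicit false

namespace Pool.Agent.W405.DZ

open MvPolynomial Pool.Agent.W282.DZ

theorem low : S_LOW := by
  intro n P hP K
  classical
  let B := MvPolynomial (Fin n) ℂ ⧸ P
  have hB : IsDomain B := Ideal.Quotient.isDomain P
  let x : Fin n → B := fun i => Ideal.Quotient.mkₐ ℂ P (X i)
  have hadj : ∀ f : B, f ∈ Algebra.adjoin ℂ (Set.range x) := by
    intro f
    obtain ⟨f, rfl⟩ := Ideal.Quotient.mkₐ_surjective ℂ P f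
    have h1 : Ideal.Quotient.mkₐ ℂ P = aeval x := by
      ext j
      simp [x]
    rw [h1, Algebra.adjoin_range_eq_range_aeval]
    exact ⟨f, rfl⟩
  have halg : Algebra.IsAlgebraic (Algebra.adjoin ℂ (Set.range x)) B :=
    ⟨fun f => isAlgebraic_algebraMap (⟨f, hadj f⟩ : Algebra.adjoin ℂ (Set.range x))⟩
  obtain ⟨t, hts, ht⟩ := exists_isTranscendenceBasis_subset (R := ℂ) (A := B) (Set.range x)
  have hc : ∀ e : t, ∃ j, x j = e := fun e => hts e.2
  choose c hc using hc
  have hcinj : Function.Injective c := by
    intro e e' hee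
    exact Subtype.ext (by rw [← hc e, ← hc e', hee])
  have htfin : Finite t := Finite.of_injective c hcinj
  have : Fintype t := Fintype.ofFinite t
  have hd : dimQ P = Fintype.card t := by
    unfold dimQ
    rw [← ht.cardinalMk_eq_trdeg]
    simp
  set N := K / dimQ P with hN
  have hlev : ∀ a : t → Fin (N + 1), (∏ e : t, (e : B) ^ (a e : ℕ)) ∈ lev P K := by
    intro a
    refine ⟨∏ e : t, X (c e) ^ (a e : ℕ), ?_, ?_⟩
    · rw [SetLike.mem_coe, mem_restrictTotalDegree]
      refine (totalDegree_finset_prod _ _).trans ?_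
      have h1 : ∀ e ∈ (Finset.univ : Finset t),
          (X (c e) ^ (a e : ℕ) : MvPolynomial (Fin n) ℂ).totalDegree ≤ N := by
        intro e _
        refine (totalDegree_pow _ _).trans ?_
        rw [totalDegree_X, mul_one]
        have := (a e).2
        omega
      refine (Finset.sum_le_card_nsmul _ _ _ h1).trans ?_
      rw [Finset.card_univ, smul_eq_mul, ← hd]
      exact Nat.mul_div_le K (dimQ P)
    · rw [AlgHom.toLinearMap_apply, map_prod]
      refine Finset.prod_congr rfl fun e _ => ?_
      rw [map_pow]
      congr 1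
      exact hc e
  let v : (t → Fin (N + 1)) → lev P K := fun a => ⟨_, hlev a⟩
  have hli : LinearIndependent ℂ v := by
    have h1 : LinearIndependent ℂ (fun a : t → Fin (N + 1) => (∏ e : t, (e : B) ^ (a e : ℕ))) := by
      have h2 : LinearIndependent ℂ
          (fun m : t →₀ ℕ => aeval ((↑) : t → B) (monomial m (1 : ℂ))) := by
        have h3 := (MvPolynomial.basisMonomials t ℂ).linearIndependent.map'
          (aeval ((↑) : t → B)).toLinearMap
          (LinearMap.ker_eq_bot.mpr ht.1)
        rw [MvPolynomial.coe_basisMonomials] at h3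
        exact h3
      have h4 := h2.comp
        (fun a : t → Fin (N + 1) => Finsupp.equivFunOnFinite.symm (fun e => (a e : ℕ))) (by
          intro a b hab
          have h5 := Finsupp.equivFunOnFinite.symm.injective hab
          funext e
          exact Fin.ext (congrFun h5 e))
      convert h4 using 1
      funext a
      simp only [Function.comp_apply, aeval_monomial, map_one, one_mul]
      rw [Finsupp.prod_fintype _ _ fun i => pow_zero _]
      rfl
    exact LinearIndependent.of_comp (Submodule.subtype _) h1
  have hfin : Module.Finite ℂ (lev P K) := by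
    unfold lev
    infer_instance
  have hcard := hli.fintype_card_le_finrank
  rw [Fintype.card_fun, Fintype.card_fin, ← hd] at hcard
  change (N + 1) ^ dimQ P ≤ hil P K at hcard
  calc K ^ dimQ P ≤ (dimQ P * (N + 1)) ^ dimQ P := by
        rcases Nat.eq_zero_or_pos (dimQ P) with h0 | h0
        · rw [h0, pow_zero, pow_zero]
        · exact Nat.pow_le_pow_left (Nat.lt_mul_div_succ K h0).le _
    _ = dimQ P ^ dimQ P * (N + 1) ^ dimQ P := Nat.mul_pow _ _ _
    _ ≤ dimQ P ^ dimQ P * hil P K := Nat.mul_le_mul_left _ hcard

end Pool.Agent.W405.DZ
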